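import Pool.Agent.H55.Berg1

set_option autoImplicit false

/-!
# [H1 QF Par] Parseval on the circle and on the disc for functions holomorphic beyond the closed unit disc
-/

namespace Pool.Agent.H1.QF

open MeasureTheory Filter Topology Metric

theorem gen {X : Type} [MeasurableSpace X] (μ : Measure X) [IsFiniteMeasure μ] (e : X → ℂ)
    (he : Measurable e) (hb : ∀ᵐ x ∂μ, ‖e x‖ ≤ 1) (c d : ℕ → ℂ) (hc : Summable fun n => ‖c n‖)
    (hd : Summable fun n => ‖d n‖)
    (w : ℕ → ℝ) (horth : ∀ n m : ℕ, n ≠ m → ∫ x, e x ^ n * (starRingEnd ℂ (e x)) ^ m ∂μ = 0)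
    (hw : ∀ n : ℕ, ∫ x, ‖e x‖ ^ (2 * n) ∂μ = w n) :
    HasSum (fun n => (w n : ℂ) * (c n * (starRingEnd ℂ) (d n)))
      (∫ x, (∑' n, c n * e x ^ n) * (starRingEnd ℂ) (∑' n, d n * e x ^ n) ∂μ) := by
  set F : ℕ × ℕ → X → ℂ := fun p x =>
    (c p.1 * e x ^ p.1) * (starRingEnd ℂ) (d p.2 * e x ^ p.2) with hF
  have hFb : ∀ p, ∀ᵐ x ∂μ, ‖F p x‖ ≤ ‖c p.1‖ * ‖d p.2‖ := by
    intro p
    filter_upwards [hb] with x hx
    rw [hF]
    simp only [norm_mul, norm_pow, RCLike.norm_conj]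
    refine mul_le_mul ?_ ?_ (by positivity) (norm_nonneg _)
    · exact mul_le_of_le_one_right (norm_nonneg _) (pow_le_one₀ (norm_nonneg _) hx)
    · exact mul_le_of_le_one_right (norm_nonneg _) (pow_le_one₀ (norm_nonneg _) hx)
  have hFm : ∀ p, AEStronglyMeasurable (F p) μ := by
    intro p
    refine Measurable.aestronglyMeasurable ?_
    rw [hF]
    exact ((measurable_const.mul (he.pow_const _))).mul
      (Complex.continuous_conj.measurable.comp (measurable_const.mul (he.pow_const _)))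
  have hint : ∀ p, Integrable (F p) μ := fun p => Integrable.of_bound (hFm p) _ (hFb p)
  have hsp : Summable (fun p : ℕ × ℕ => ‖c p.1‖ * ‖d p.2‖ * μ.real Set.univ) :=
    (hc.mul_of_nonneg hd (fun _ => norm_nonneg _) (fun _ => norm_nonneg _)).mul_right _
  have hsum : Summable (fun p => ∫ x, ‖F p x‖ ∂μ) := by
    refine Summable.of_nonneg_of_le (fun p => integral_nonneg fun x => norm_nonneg _) (fun p => ?_) hsp
    have h1 := norm_integral_le_of_norm_le_const (μ := μ) (f := fun x => ‖F p x‖)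
      (C := ‖c p.1‖ * ‖d p.2‖) (by
        filter_upwards [hFb p] with x hx
        rwa [norm_norm])
    exact (le_abs_self _).trans h1
  have h := hasSum_integral_of_summable_integral_norm hint hsum
  have hsm : ∀ c : ℕ → ℂ, (Summable fun n => ‖c n‖) → ∀ x, ‖e x‖ ≤ 1 →
      Summable fun n => ‖c n * e x ^ n‖ := by
    intro c hc x hx
    refine Summable.of_nonneg_of_le (fun n => norm_nonneg _) (fun n => ?_) hc
    rw [norm_mul, norm_pow]
    exact mul_le_of_le_one_right (norm_nonneg _) (pow_le_one₀ (norm_nonneg _) hx)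
  have hS : ∫ x, ∑' p, F p x ∂μ =
      ∫ x, (∑' n, c n * e x ^ n) * (starRingEnd ℂ) (∑' n, d n * e x ^ n) ∂μ := by
    refine integral_congr_ae ?_
    filter_upwards [hb] with x hx
    have h1 := hsm c hc x hx
    have h2 : Summable fun n => ‖(starRingEnd ℂ) (d n * e x ^ n)‖ := by
      simpa only [RCLike.norm_conj] using hsm d hd x hx
    have h3 := tsum_mul_tsum_of_summable_norm h1 h2
    have h4 : ∑' n, (starRingEnd ℂ) (d n * e x ^ n) = (starRingEnd ℂ) (∑' n, d n * e x ^ n) := by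
      rw [← Complex.conjCLE_apply, ContinuousLinearEquiv.map_tsum]
      rfl
    rw [h4] at h3
    exact h3.symm
  rw [hS] at h
  have hI : ∀ p : ℕ × ℕ, ∫ x, F p x ∂μ =
      if p.1 = p.2 then (w p.1 : ℂ) * (c p.1 * (starRingEnd ℂ) (d p.1)) else 0 := by
    intro p
    have e1 : ∀ x, F p x = c p.1 * (starRingEnd ℂ) (d p.2) *
        (e x ^ p.1 * (starRingEnd ℂ (e x)) ^ p.2) := by
      intro x
      rw [hF]
      simp only [map_mul, map_pow]
      ring
    simp only [e1]
    rw [integral_const_mul]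
    by_cases hp : p.1 = p.2
    · rw [if_pos hp, ← hp]
      have e2 : ∀ x, e x ^ p.1 * (starRingEnd ℂ (e x)) ^ p.1 = ((‖e x‖ ^ (2 * p.1) : ℝ) : ℂ) := by
        intro x
        rw [← mul_pow, RCLike.mul_conj]
        push_cast
        rw [pow_mul]
        rfl
      simp only [e2]
      rw [integral_complex_ofReal, hw]
      ring
    · rw [if_neg hp, horth _ _ hp, mul_zero]
  simp only [hI] at h
  have hinj : Function.Injective (fun n : ℕ => (n, n)) := fun a b hab => (Prod.mk.inj hab).1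
  have h5 := (hinj.hasSum_iff (f := fun p : ℕ × ℕ =>
    if p.1 = p.2 then (w p.1 : ℂ) * (c p.1 * (starRingEnd ℂ) (d p.1)) else 0) (by
      intro p hp
      rw [if_neg]
      intro h6
      exact hp ⟨p.1, Prod.ext rfl h6⟩)).2 h
  simpa only [Function.comp_def, if_true] using h5

/-- Taylor coefficients -/
noncomputable def tc (g : ℂ → ℂ) (n : ℕ) : ℂ := iteratedDeriv n g 0 / n.factorial

theorem hasSum_tc {f : ℂ → ℂ} {ρ : ℝ} (hf : DifferentiableOn ℂ f (ball 0 ρ)) {z : ℂ}
    (hz : ‖z‖ < ρ) : HasSum (fun n => tc f n * z ^ n) (f z) := by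
  have h := Complex.hasSum_taylorSeries_on_ball hf (z := z) (by rwa [mem_ball_zero_iff])
  refine h.congr_fun ?_
  intro n
  simp only [tc, sub_zero, smul_eq_mul]
  rw [div_eq_mul_inv]
  ring

theorem summable_tc {f : ℂ → ℂ} {ρ : ℝ} (hρ : 1 < ρ) (hf : DifferentiableOn ℂ f (ball 0 ρ)) :
    Summable fun n => ‖tc f n‖ := by
  have h := (hasSum_tc hf (z := 1) (by rw [norm_one]; exact hρ)).summable.norm
  simpa only [one_pow, mul_one] using h

theorem berg {f h : ℂ → ℂ} {ρ σ : ℝ} (hρ : 1 < ρ) (hf : DifferentiableOn ℂ f (ball 0 ρ))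
    (hσ : 1 < σ) (hh : DifferentiableOn ℂ h (ball 0 σ)) :
    HasSum (fun n : ℕ => ((Real.pi / (n + 1) : ℝ) : ℂ) * (tc f n * (starRingEnd ℂ) (tc h n)))
      (∫ z in ball (0 : ℂ) 1, f z * (starRingEnd ℂ) (h z)) := by
  have hfin : IsFiniteMeasure (volume.restrict (ball (0 : ℂ) 1)) :=
    ⟨by rw [Measure.restrict_apply_univ]; exact measure_ball_lt_top⟩
  have hg := gen (volume.restrict (ball (0 : ℂ) 1)) (fun z => z) measurable_id
    ((ae_restrict_iff' measurableSet_ball).2 (Eventually.of_forall fun z hz => by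
      rw [mem_ball_zero_iff] at hz
      exact hz.le)) (tc f) (tc h) (summable_tc hρ hf) (summable_tc hσ hh) (fun n => Real.pi / (n + 1))
    (fun n m hnm => by
      have h1 := Pool.Agent.H55.orth_monomials (fun _ => 1) hnm
      simpa using h1)
    (fun n => Pool.Agent.H55.moment n)
  have e : ∫ z in ball (0 : ℂ) 1, f z * (starRingEnd ℂ) (h z) =
      ∫ z in ball (0 : ℂ) 1, (∑' n, tc f n * z ^ n) * (starRingEnd ℂ) (∑' n, tc h n * z ^ n) := by
    refine setIntegral_congr_fun measurableSet_ball fun z hz => ?_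
    rw [mem_ball_zero_iff] at hz
    rw [(hasSum_tc hf (by linarith)).tsum_eq, (hasSum_tc hh (by linarith)).tsum_eq]
  rw [e]
  exact hg

theorem em_orth (k : ℕ) (hk : k ≠ 0) (s : ℝ) (hs : s = 1 ∨ s = -1) :
    ∫ θ in (0 : ℝ)..(2 * Real.pi), Complex.exp (s * (θ * Complex.I)) ^ k = 0 := by
  have hc : ((s * k : ℝ) : ℂ) * Complex.I ≠ 0 := by
    refine mul_ne_zero ?_ Complex.I_ne_zero
    rw [Complex.ofReal_ne_zero]
    refine mul_ne_zero ?_ (by exact_mod_cast hk)
    rcases hs with h | h <;> rw [h] <;> norm_num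
  have e : ∀ θ : ℝ, Complex.exp (s * (θ * Complex.I)) ^ k =
      Complex.exp (((s * k : ℝ) : ℂ) * Complex.I * θ) := by
    intro θ
    rw [← Complex.exp_nat_mul]
    congr 1
    push_cast
    ring
  simp only [e]
  rw [integral_exp_mul_complex hc]
  have e2 : Complex.exp (((s * k : ℝ) : ℂ) * Complex.I * ((2 * Real.pi : ℝ) : ℂ)) = 1 := by
    rcases hs with h | h
    · rw [h, Complex.exp_eq_one_iff]
      exact ⟨k, by push_cast; ring⟩
    · rw [h, Complex.exp_eq_one_iff]
      exact ⟨-k, by push_cast; ring⟩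
  rw [e2]
  simp

theorem par {f h : ℂ → ℂ} {ρ σ : ℝ} (hρ : 1 < ρ) (hf : DifferentiableOn ℂ f (ball 0 ρ))
    (hσ : 1 < σ) (hh : DifferentiableOn ℂ h (ball 0 σ)) :
    HasSum (fun n : ℕ => ((2 * Real.pi : ℝ) : ℂ) * (tc f n * (starRingEnd ℂ) (tc h n)))
      (∫ θ in (0 : ℝ)..(2 * Real.pi), f (Complex.exp (-(θ * Complex.I))) *
        (starRingEnd ℂ) (h (Complex.exp (-(θ * Complex.I))))) := by
  have hpi : (0 : ℝ) ≤ 2 * Real.pi := by positivity
  have hne : ∀ θ : ℝ, ‖Complex.exp (-(θ * Complex.I))‖ = 1 := by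
    intro θ
    rw [Complex.norm_exp]
    simp
  have hcj : ∀ θ : ℝ, Complex.exp (-(θ * Complex.I)) * (starRingEnd ℂ) (Complex.exp (-(θ * Complex.I))) = 1 := by
    intro θ
    rw [Complex.mul_conj, Complex.normSq_eq_norm_sq, hne]
    simp
  have hcj2 : ∀ θ : ℝ, (starRingEnd ℂ) (Complex.exp (-(θ * Complex.I))) = Complex.exp (θ * Complex.I) := by
    intro θ
    rw [← Complex.exp_conj]
    congr 1
    simp
  have hor : ∀ n m : ℕ, n ≠ m → ∫ θ in (0 : ℝ)..(2 * Real.pi), Complex.exp (-(θ * Complex.I)) ^ n *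
      (starRingEnd ℂ (Complex.exp (-(θ * Complex.I)))) ^ m = 0 := by
    intro n m hnm
    rcases lt_or_gt_of_ne hnm with h1 | h1
    · obtain ⟨k, rfl⟩ := Nat.exists_eq_add_of_lt h1
      have e : ∀ θ : ℝ, Complex.exp (-(θ * Complex.I)) ^ n *
          (starRingEnd ℂ (Complex.exp (-(θ * Complex.I)))) ^ (n + k + 1) =
          Complex.exp (((1 : ℝ) : ℂ) * (θ * Complex.I)) ^ (k + 1) := by
        intro θ
        rw [add_assoc n k 1, pow_add _ n, ← mul_assoc, ← mul_pow, hcj, one_pow, one_mul, hcj2]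
        simp
      simp only [e]
      exact em_orth (k + 1) (by omega) 1 (Or.inl rfl)
    · obtain ⟨k, rfl⟩ := Nat.exists_eq_add_of_lt h1
      have e : ∀ θ : ℝ, Complex.exp (-(θ * Complex.I)) ^ (m + k + 1) *
          (starRingEnd ℂ (Complex.exp (-(θ * Complex.I)))) ^ m =
          Complex.exp (((-1 : ℝ) : ℂ) * (θ * Complex.I)) ^ (k + 1) := by
        intro θ
        rw [add_assoc m k 1, pow_add _ m, mul_right_comm, ← mul_pow, hcj, one_pow, one_mul]
        congr 2
        push_cast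
        ring
      simp only [e]
      exact em_orth (k + 1) (by omega) (-1) (Or.inr rfl)
  have hfin : IsFiniteMeasure (volume.restrict (Set.Ioc (0 : ℝ) (2 * Real.pi))) :=
    ⟨by rw [Measure.restrict_apply_univ]; exact measure_Ioc_lt_top⟩
  have hg := gen (volume.restrict (Set.Ioc (0 : ℝ) (2 * Real.pi)))
    (fun θ : ℝ => Complex.exp (-(θ * Complex.I)))
    (by fun_prop) (Eventually.of_forall fun θ => (hne θ).le) (tc f) (tc h)
    (summable_tc hρ hf) (summable_tc hσ hh) (fun _ => 2 * Real.pi)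
    (fun n m hnm => by
      rw [← intervalIntegral.integral_of_le hpi]
      exact hor n m hnm)
    (fun n => by
      simp only [hne, one_pow]
      rw [← intervalIntegral.integral_of_le hpi]
      simp)
  have e : ∫ θ in (0 : ℝ)..(2 * Real.pi), f (Complex.exp (-(θ * Complex.I))) *
        (starRingEnd ℂ) (h (Complex.exp (-(θ * Complex.I)))) =
      ∫ θ in Set.Ioc (0 : ℝ) (2 * Real.pi), (∑' n, tc f n * Complex.exp (-(θ * Complex.I)) ^ n) *
        (starRingEnd ℂ) (∑' n, tc h n * Complex.exp (-(θ * Complex.I)) ^ n) := by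
    rw [intervalIntegral.integral_of_le hpi]
    refine setIntegral_congr_fun measurableSet_Ioc fun θ _ => ?_
    rw [(hasSum_tc hf (by rw [hne]; exact hρ)).tsum_eq, (hasSum_tc hh (by rw [hne]; exact hσ)).tsum_eq]
  rw [e]
  exact hg

theorem bergN {f : ℂ → ℂ} {ρ : ℝ} (hρ : 1 < ρ) (hf : DifferentiableOn ℂ f (ball 0 ρ)) :
    HasSum (fun n : ℕ => Real.pi / (n + 1) * ‖tc f n‖ ^ 2) (∫ z in ball (0 : ℂ) 1, ‖f z‖ ^ 2) := by
  have h := berg hρ hf hρ hf
  have e : ∫ z in ball (0 : ℂ) 1, f z * (starRingEnd ℂ) (f z) =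
      ((∫ z in ball (0 : ℂ) 1, ‖f z‖ ^ 2 : ℝ) : ℂ) := by
    rw [← integral_complex_ofReal]
    refine setIntegral_congr_fun measurableSet_ball fun z _ => ?_
    simp only [RCLike.mul_conj]
    push_cast
    rfl
  rw [e] at h
  refine Complex.hasSum_ofReal.1 (h.congr_fun fun n => ?_)
  rw [RCLike.mul_conj]
  push_cast
  rfl

theorem parN {f : ℂ → ℂ} {ρ : ℝ} (hρ : 1 < ρ) (hf : DifferentiableOn ℂ f (ball 0 ρ)) :
    HasSum (fun n : ℕ => 2 * Real.pi * ‖tc f n‖ ^ 2)
      (∫ θ in (0 : ℝ)..(2 * Real.pi), ‖f (Complex.exp (-(θ * Complex.I)))‖ ^ 2) := by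
  have h := par hρ hf hρ hf
  have e : ∫ θ in (0 : ℝ)..(2 * Real.pi), f (Complex.exp (-(θ * Complex.I))) *
        (starRingEnd ℂ) (f (Complex.exp (-(θ * Complex.I)))) =
      ((∫ θ in (0 : ℝ)..(2 * Real.pi), ‖f (Complex.exp (-(θ * Complex.I)))‖ ^ 2 : ℝ) : ℂ) := by
    rw [← intervalIntegral.integral_ofReal]
    refine intervalIntegral.integral_congr fun θ _ => ?_
    simp only [RCLike.mul_conj]
    push_cast
    rfl
  rw [e] at h
  refine Complex.hasSum_ofReal.1 (h.congr_fun fun n => ?_)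
  rw [RCLike.mul_conj]
  push_cast
  rfl

end Pool.Agent.H1.QF
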